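import Pool.Agent.J6H82.Fuj.Orbit

/-!
# The order of a group acting freely on a hypersurface
-/

set_option autoImplicit false

namespace Pool.Agent.J6H82.Fuj

open Module MvPolynomial Pool.Agent.N212.FQ

variable {M : ℕ}

/-- a root of a scalar of order smaller than the dimension has two independent eigenvectors with
the same eigenvalue -/
theorem eig_plane {l : ℕ} (hl : 0 < l) (hlM : l < M) (A : Module.End ℂ (Fin M → ℂ)) {c : ℂ}
    (hc : c ≠ 0) (hA : ∀ x, (A ^ l) x = c • x) :
    ∃ (μ : ℂ) (x y : Fin M → ℂ), LinearIndependent ℂ ![x, y] ∧ A x = μ • x ∧ A y = μ • y := by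
  classical
  by_contra hcon
  push Not at hcon
  have hss : A.IsSemisimple := by
    refine Module.End.isSemisimple_of_squarefree_aeval_eq_zero
      (p := Polynomial.X ^ l - Polynomial.C c) ?_ ?_
    · refine Polynomial.Separable.squarefree ?_
      exact Polynomial.separable_X_pow_sub_C c (by exact_mod_cast hl.ne') hc
    · refine LinearMap.ext fun x => ?_
      rw [map_sub, map_pow, Polynomial.aeval_X, Polynomial.aeval_C, LinearMap.sub_apply, hA,
        Module.algebraMap_end_apply, sub_self, LinearMap.zero_apply]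
  have htop := hss.iSup_eigenspace_eq_top
  set s : Finset ℂ := (Polynomial.X ^ l - Polynomial.C c).roots.toFinset with hs
  have hcard : s.card ≤ l := by
    refine (Multiset.toFinset_card_le _).trans ?_
    refine (Polynomial.card_roots' _).trans ?_
    rw [Polynomial.natDegree_X_pow_sub_C]
  have hne : (Polynomial.X ^ l - Polynomial.C c : Polynomial ℂ) ≠ 0 :=
    Polynomial.X_pow_sub_C_ne_zero hl c
  have hmem : ∀ (μ : ℂ) (x : Fin M → ℂ), x ≠ 0 → A x = μ • x → μ ∈ s := by
    intro μ x hx h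
    rw [hs, Multiset.mem_toFinset, Polynomial.mem_roots hne, Polynomial.IsRoot, Polynomial.eval_sub,
      Polynomial.eval_pow, Polynomial.eval_X, Polynomial.eval_C, sub_eq_zero]
    have h1 : ∀ k : ℕ, (A ^ k) x = μ ^ k • x := by
      intro k
      induction k with
      | zero => simp
      | succ k ih => rw [pow_succ', Module.End.mul_apply, ih, map_smul, h, smul_smul, pow_succ]
    have h2 := (hA x).symm.trans (h1 l)
    exact (smul_left_injective ℂ hx h2).symm
  have hv : ∀ μ : ℂ, ∃ v : Fin M → ℂ, A.eigenspace μ ≤ Submodule.span ℂ {v} ∧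
      (μ ∉ s → v = 0) := by
    intro μ
    by_cases h : ∃ x : Fin M → ℂ, x ≠ 0 ∧ A x = μ • x
    · obtain ⟨x, hx0, hx⟩ := h
      refine ⟨x, ?_, fun h => absurd (hmem μ x hx0 hx) h⟩
      intro y hy
      rw [Module.End.mem_eigenspace_iff] at hy
      by_contra hyx
      refine hcon μ x y ?_ hx hy
      rw [LinearIndependent.pair_iff' hx0]
      intro a ha
      exact hyx (Submodule.mem_span_singleton.2 ⟨a, ha⟩)
    · refine ⟨0, ?_, fun _ => rfl⟩
      intro y hy
      rw [Module.End.mem_eigenspace_iff] at hy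
      by_contra hy0
      exact h ⟨y, fun h0 => hy0 (by rw [h0]; exact Submodule.zero_mem _), hy⟩
  choose v hv1 hv2 using hv
  have h1 : (⊤ : Submodule ℂ (Fin M → ℂ)) ≤ Submodule.span ℂ ((s.image v : Finset _) :
      Set (Fin M → ℂ)) := by
    rw [← htop, iSup_le_iff]
    intro μ
    refine (hv1 μ).trans ?_
    rw [Submodule.span_le, Set.singleton_subset_iff]
    by_cases hμ : μ ∈ s
    · exact Submodule.subset_span (Finset.mem_coe.2 (Finset.mem_image_of_mem v hμ))
    · rw [hv2 μ hμ]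
      exact Submodule.zero_mem _
  have h2 := Submodule.finrank_mono h1
  rw [finrank_top, Module.finrank_fin_fun] at h2
  have h3 := finrank_span_finset_le_card (R := ℂ) (s.image v)
  have h4 := Finset.card_image_le (s := s) (f := v)
  have h5 : finrank ℂ (Submodule.span ℂ ((s.image v : Finset _) : Set (Fin M → ℂ))) ≤
    (s.image v).card := h3
  omega

variable {G : Type} [Group G] {ρ : Representation ℂ G (Fin M → ℂ)}

/-- the prime factors of the order are at least `M` -/
theorem prime_ge [Finite G]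
    (h2 : ∀ (g : G) (x y : Fin M → ℂ) (μ : ℂ), LinearIndependent ℂ ![x, y] →
      ρ g x = μ • x → ρ g y = μ • y → g ∈ scalars ρ) (hM : 1 ≤ M)
    {l : ℕ} (hl : l.Prime) (hdvd : l ∣ (scalars ρ).index) : M ≤ l := by
  by_contra hlM
  push Not at hlM
  haveI : Fact l.Prime := ⟨hl⟩
  rw [Subgroup.index_eq_card] at hdvd
  obtain ⟨q, hq⟩ := exists_prime_orderOf_dvd_card' l hdvd
  obtain ⟨g, rfl⟩ := QuotientGroup.mk_surjective q
  have hg : g ∉ scalars ρ := by
    intro h
    have h1 : ((g : G) : G ⧸ scalars ρ) = 1 := (QuotientGroup.eq_one_iff g).2 h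
    rw [h1, orderOf_one] at hq
    exact hl.one_lt.ne hq
  have hgl : g ^ l ∈ scalars ρ := by
    rw [← QuotientGroup.eq_one_iff, QuotientGroup.mk_pow, ← hq, pow_orderOf_eq_one]
  obtain ⟨c, hc⟩ := hgl
  have hc0 : c ≠ 0 := by
    rintro rfl
    have h1 : (Pi.single ⟨0, by omega⟩ 1 : Fin M → ℂ) ≠ 0 := by simp
    exact rep_ne_zero (ρ := ρ) h1 (g ^ l) (by rw [hc, zero_smul])
  obtain ⟨μ, x, y, hli, hx, hy⟩ := eig_plane hl.pos hlM (ρ g) hc0 (fun x => by
    rw [← map_pow]
    exact hc x)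
  exact hg (h2 g x y μ hli hx hy)

/-- If two elements commute up to a scalar `ω ≠ 1`, then `M` is a prime and one can take `ω` of
order `M`. -/
theorem commutator_prime [Finite G]
    (h2 : ∀ (g : G) (x y : Fin M → ℂ) (μ : ℂ), LinearIndependent ℂ ![x, y] →
      ρ g x = μ • x → ρ g y = μ • y → g ∈ scalars ρ) (hM : 1 ≤ M)
    {x y : G} {ω : ℂ} (hxy : ∀ v, ρ x (ρ y v) = ω • ρ y (ρ x v)) (hω1 : ω ≠ 1) :
    M.Prime ∧ ω ^ M = 1 := by
  have hv0 : (Pi.single ⟨0, by omega⟩ 1 : Fin M → ℂ) ≠ 0 := by simp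
  have hdet : ω ^ M = 1 := by
    have h1 : ρ x * ρ y = ω • (ρ y * ρ x) := LinearMap.ext hxy
    have h3 := congrArg LinearMap.det h1
    rw [LinearMap.det_smul, map_mul, map_mul, Module.finrank_fin_fun, mul_comm (LinearMap.det
      (ρ y))] at h3
    have h4 : ∀ g : G, LinearMap.det (ρ g) ≠ 0 := by
      intro g h0
      have h5 : ρ g * ρ g⁻¹ = 1 := by rw [← map_mul, mul_inv_cancel, map_one]
      have h6 := congrArg LinearMap.det h5
      rw [map_mul, map_one, h0, zero_mul] at h6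
      exact zero_ne_one h6
    exact (mul_right_cancel₀ (mul_ne_zero (h4 x) (h4 y)) (by rw [one_mul]; exact h3)).symm
  refine ⟨?_, hdet⟩
  have hN : orderOf ω ∣ M := orderOf_dvd_of_pow_eq_one hdet
  have hN0 : 0 < orderOf ω := Nat.pos_of_dvd_of_pos hN hM
  have hN1 : orderOf ω ≠ 1 := fun h => hω1 (orderOf_eq_one_iff.1 h)
  set l := (orderOf ω).minFac with hl
  have hlp : l.Prime := Nat.minFac_prime hN1
  have hlN : l ∣ orderOf ω := Nat.minFac_dvd _
  obtain ⟨j, hj⟩ := hlN
  -- powers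
  have hpow : ∀ k : ℕ, ∀ v, ρ (x ^ k) (ρ y v) = ω ^ k • ρ y (ρ (x ^ k) v) := by
    intro k
    induction k with
    | zero => simp
    | succ k ih =>
      intro v
      rw [pow_succ', map_mul, Module.End.mul_apply, ih, map_smul, hxy, smul_smul,
        Module.End.mul_apply, pow_succ]
  have hpow2 : ∀ k : ℕ, ∀ v, ρ (x ^ j) (ρ (y ^ k) v) = (ω ^ j) ^ k • ρ (y ^ k) (ρ (x ^ j) v) := by
    intro k
    induction k with
    | zero => simp
    | succ k ih =>
      intro v
      rw [pow_succ', map_mul, Module.End.mul_apply, hpow, ih, map_smul, smul_smul,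
        Module.End.mul_apply, pow_succ']
  have hord : orderOf (ω ^ j) = l := by
    have hj0 : j ≠ 0 := by
      rintro rfl
      omega
    rw [orderOf_pow' ω hj0, Nat.gcd_eq_right (Dvd.intro_left l hj.symm), hj,
      Nat.mul_div_cancel _ (Nat.pos_of_ne_zero hj0)]
  -- `l` divides the index
  have hldvd : l ∣ (scalars ρ).index := by
    set t := orderOf ((y : G) : G ⧸ scalars ρ) with ht
    have h3 : y ^ t ∈ scalars ρ := by
      rw [← QuotientGroup.eq_one_iff, QuotientGroup.mk_pow, ht, pow_orderOf_eq_one]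
    obtain ⟨c, hc⟩ := h3
    have h4 := hpow2 t (Pi.single ⟨0, by omega⟩ 1)
    rw [hc, hc, map_smul, smul_smul] at h4
    have hc0 : c ≠ 0 := by
      rintro rfl
      exact rep_ne_zero (ρ := ρ) hv0 (y ^ t) (by rw [hc, zero_smul])
    have h5 := smul_left_injective ℂ (rep_ne_zero (ρ := ρ) hv0 (x ^ j)) h4
    have h6 : (ω ^ j) ^ t = 1 := by
      have h7 : 1 * c = (ω ^ j) ^ t * c := by rw [one_mul]; exact h5
      exact (mul_right_cancel₀ hc0 h7).symm
    have h7 : l ∣ t := by
      rw [← hord]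
      exact orderOf_dvd_of_pow_eq_one h6
    rw [Subgroup.index_eq_card]
    exact h7.trans (orderOf_dvd_natCard _)
  have h3 := prime_ge h2 hM hlp hldvd
  have h4 : l ∣ M := (Dvd.intro j hj.symm).trans hN
  have h5 : l = M := le_antisymm (Nat.le_of_dvd hM h4) h3
  rwa [h5] at hlp

/-- If all scalar commutators satisfy `ω ^ k = 1` then the order modulo scalars divides `k d`
(after `Pool.Agent.N212.FQ.ord_dvd`). -/
theorem index_dvd [Finite G] {d k : ℕ} (hM : 2 ≤ M) (hd : 1 ≤ d) (hk : 1 ≤ k)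
    {f : MvPolynomial (Fin M) ℂ} (hf : f.IsHomogeneous d)
    (hsemi : ∀ g, ∃ c : ℂ, ∀ x, eval (ρ g x) f = c * eval x f)
    (hfree : ∀ v : Fin M → ℂ, v ≠ 0 → eval v f = 0 → ∀ (g : G) (μ : ℂ), ρ g v = μ • v →
      g ∈ scalars ρ)
    (hcommk : ∀ (x y : G) (ω : ℂ), (∀ v, ρ x (ρ y v) = ω • ρ y (ρ x v)) → ω ^ k = 1) :
    (scalars ρ).index ∣ k * d := by
  classical
  suffices hsuf : Nat.card G ∣ k * d * Nat.card (scalars ρ) by
    rw [← Subgroup.index_mul_card (scalars ρ)] at hsuf
    exact Nat.dvd_of_mul_dvd_mul_right Nat.card_pos hsuf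
  -- a group element with two independent eigenvectors with the same eigenvalue is a scalar
  have h2 : ∀ (g : G) (x y : Fin M → ℂ) (μ : ℂ), LinearIndependent ℂ ![x, y] →
      ρ g x = μ • x → ρ g y = μ • y → g ∈ scalars ρ := by
    intro g x y μ hli hx hy
    obtain ⟨s, t, hne, h0⟩ := Pool.Agent.N738.FQ.exists_zero hd hf hli
    refine hfree _ hne h0 g μ ?_
    rw [map_add, map_smul, map_smul, hx, hy, smul_add, smul_comm μ s, smul_comm μ t]
  have hS0 : Nat.card (scalars ρ) ≠ 0 := Nat.card_pos.ne'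
  have hkd0 : k * d * Nat.card (scalars ρ) ≠ 0 := by positivity
  rw [← Nat.factorization_prime_le_iff_dvd (Nat.card_pos.ne') hkd0]
  intro p hp
  rw [← hp.pow_dvd_iff_le_factorization hkd0]
  haveI : Fact p.Prime := ⟨hp⟩
  obtain ⟨S⟩ : Nonempty (Sylow p G) := inferInstance
  rw [← Sylow.card_eq_multiplicity S]
  set N : Subgroup S := (scalars ρ).subgroupOf S with hN
  rcases subsingleton_or_nontrivial (S ⧸ N) with hSN | hSN
  · have h3 : (S : Subgroup G) ≤ scalars ρ := by
      intro g hg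
      have h4 : ((⟨g, hg⟩ : S) : S ⧸ N) = ((1 : S) : S ⧸ N) := Subsingleton.elim _ _
      rw [eq_comm, QuotientGroup.eq, inv_one, one_mul] at h4
      exact h4
    exact (Subgroup.card_dvd_of_le h3).trans (Dvd.intro_left _ rfl)
  -- a central element modulo scalars
  have hPG : IsPGroup p (S ⧸ N) := S.isPGroup'.to_quotient N
  obtain ⟨⟨zb, hzb⟩, hz1⟩ : ∃ z : Subgroup.center (S ⧸ N), z ≠ 1 := by
    haveI := hPG.center_nontrivial
    exact exists_ne 1
  obtain ⟨z, rfl⟩ := QuotientGroup.mk_surjective zb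
  have hz1' : (z : G) ∉ scalars ρ := by
    intro h
    refine hz1 (Subtype.ext ?_)
    show (QuotientGroup.mk z : S ⧸ N) = QuotientGroup.mk 1
    rw [eq_comm, QuotientGroup.eq, inv_one, one_mul]
    exact h
  have hcomm : ∀ g : S, ∃ s : G, s ∈ scalars ρ ∧ (g : G) * z = s * (z * g) := by
    intro g
    have h3 := Subgroup.mem_center_iff.1 hzb (QuotientGroup.mk g)
    rw [← QuotientGroup.mk_mul, ← QuotientGroup.mk_mul, eq_comm, QuotientGroup.eq] at h3
    have h4 : ((z : G) * g)⁻¹ * (g * z) ∈ scalars ρ := h3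
    refine ⟨(g * z) * ((z : G) * g)⁻¹, ?_, by group⟩
    have h5 := (scalars_normal (ρ := ρ)).conj_mem _ h4 ((z : G) * g)
    rwa [← mul_assoc, mul_inv_cancel, one_mul] at h5
  obtain ⟨x, y, μ, ν, hli, hx, hy⟩ := Pool.Agent.N738.FQ.two_eig hM (orderOf_pos (z : G)) (ρ z) (by
    rw [← map_pow, pow_orderOf_eq_one, map_one])
  obtain ⟨hx0, hy0⟩ : x ≠ 0 ∧ y ≠ 0 := by
    constructor
    · exact hli.ne_zero 0
    · exact hli.ne_zero 1
  have hfx : eval x f ≠ 0 := fun h => hz1' (hfree x hx0 h z μ hx)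
  have hfy : eval y f ≠ 0 := fun h => hz1' (hfree y hy0 h z ν hy)
  -- the commutator
  have hω : ∀ g : S, ∃ ω : ℂ, (∀ v, ρ g (ρ z v) = ω • ρ z (ρ g v)) ∧ ω ^ k = 1 := by
    intro g
    obtain ⟨s, ⟨c, hc⟩, hs⟩ := hcomm g
    have h3 : ∀ v, ρ g (ρ z v) = c • ρ z (ρ g v) := by
      intro v
      rw [← Module.End.mul_apply, ← map_mul, hs, map_mul, Module.End.mul_apply, hc, map_mul,
        Module.End.mul_apply]
    exact ⟨c, h3, hcommk _ _ _ h3⟩
  choose ω hω1 hω2 using hω
  have hinj : ∀ (g : G) (v : Fin M → ℂ), v ≠ 0 → ρ g v ≠ 0 := fun g v hv => rep_ne_zero hv g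
  have hωmul : ∀ g h : S, ω (g * h) = ω g * ω h := by
    intro g h
    have h3 := hω1 (g * h) x
    have h4 : ρ ((g * h : S) : G) (ρ z x) = (ω g * ω h) • ρ z (ρ ((g * h : S) : G) x) := by
      rw [Subgroup.coe_mul, map_mul, Module.End.mul_apply, hω1 h, map_smul, hω1 g, smul_smul,
        Module.End.mul_apply, mul_comm]
    rw [h3] at h4
    exact smul_left_injective ℂ (hinj _ _ (hinj _ _ hx0)) h4
  haveI : NeZero k := ⟨by omega⟩
  let Ω : S →* rootsOfUnity k ℂ := MonoidHom.mk' (fun g => rootsOfUnity.mkOfPowEq _ (hω2 g)) (by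
    intro g h
    refine Subtype.ext (Units.ext ?_)
    rw [Subgroup.coe_mul, Units.val_mul, rootsOfUnity.val_mkOfPowEq_coe,
      rootsOfUnity.val_mkOfPowEq_coe, rootsOfUnity.val_mkOfPowEq_coe, hωmul])
  have hΩ : ∀ g : Ω.ker, ω (g : S) = 1 := by
    intro g
    have h4 := congrArg (fun w : rootsOfUnity k ℂ => ((w : ℂˣ) : ℂ)) (MonoidHom.mem_ker.1 g.2)
    have h5 : ((Ω g : ℂˣ) : ℂ) = ω g := rootsOfUnity.val_mkOfPowEq_coe _ _
    rw [← h5]
    exact h4
  -- the eigenlines are preserved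
  have hpres : ∀ (v : Fin M → ℂ) (lam : ℂ), v ≠ 0 → ρ z v = lam • v → ∀ g : Ω.ker,
      ∃ a : ℂ, ρ ((g : S) : G) v = a • v := by
    intro v lam hv0 hv g
    by_contra hcon
    push Not at hcon
    refine hz1' (h2 z v (ρ ((g : S) : G) v) lam ?_ hv ?_)
    · rw [LinearIndependent.pair_iff' hv0]
      intro a h
      exact hcon a h.symm
    · have h3 := hω1 (g : S) v
      rw [hΩ g, one_smul] at h3
      rw [← h3, hv, map_smul]
  choose α hα using fun g => hpres x μ hx0 hx g
  choose β hβ using fun g => hpres y ν hy0 hy g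
  have hα0 : ∀ g, α g ≠ 0 := by
    intro g h
    have h3 := hα g
    rw [h, zero_smul] at h3
    exact hinj _ _ hx0 h3
  have hβ0 : ∀ g, β g ≠ 0 := by
    intro g h
    have h3 := hβ g
    rw [h, zero_smul] at h3
    exact hinj _ _ hy0 h3
  have hmul : ∀ (v : Fin M → ℂ) (γ : Ω.ker → ℂ), v ≠ 0 →
      (∀ g : Ω.ker, ρ ((g : S) : G) v = γ g • v) → ∀ g h, γ (g * h) = γ g * γ h := by
    intro v γ hv0 hγ g h
    have h3 : ρ (((g * h : Ω.ker) : S) : G) v = (γ g * γ h) • v := by
      rw [Subgroup.coe_mul, Subgroup.coe_mul, map_mul, Module.End.mul_apply, hγ h, map_smul, hγ g,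
        smul_smul, mul_comm]
    rw [hγ (g * h)] at h3
    exact smul_left_injective ℂ hv0 h3
  have hpow : ∀ g, α g ^ d = β g ^ d := by
    intro g
    obtain ⟨c, hc⟩ := hsemi ((g : S) : G)
    have e1 : α g ^ d = c := by
      have h3 := hc x
      rw [hα g, eval_smul_of_isHomogeneous hf] at h3
      exact mul_right_cancel₀ hfx h3
    have e2 : β g ^ d = c := by
      have h3 := hc y
      rw [hβ g, eval_smul_of_isHomogeneous hf] at h3
      exact mul_right_cancel₀ hfy h3
    rw [e1, e2]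
  haveI : NeZero d := ⟨by omega⟩
  have hroot : ∀ g, (β g / α g) ^ d = 1 := by
    intro g
    rw [div_pow, ← hpow g, div_self (pow_ne_zero _ (hα0 g))]
  let χ : Ω.ker →* rootsOfUnity d ℂ :=
    MonoidHom.mk' (fun g => rootsOfUnity.mkOfPowEq _ (hroot g)) (by
    intro g h
    refine Subtype.ext (Units.ext ?_)
    rw [Subgroup.coe_mul, Units.val_mul, rootsOfUnity.val_mkOfPowEq_coe,
      rootsOfUnity.val_mkOfPowEq_coe, rootsOfUnity.val_mkOfPowEq_coe, hmul x α hx0 hα,
      hmul y β hy0 hβ]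
    have := hα0 g
    have := hα0 h
    field_simp)
  have hχ : ∀ g : χ.ker, (((g : Ω.ker) : S) : G) ∈ scalars ρ := by
    intro g
    have h3 : β (g : Ω.ker) / α (g : Ω.ker) = 1 := by
      have h4 := congrArg (fun w : rootsOfUnity d ℂ => ((w : ℂˣ) : ℂ)) (MonoidHom.mem_ker.1 g.2)
      have h5 : ((χ g : ℂˣ) : ℂ) = β (g : Ω.ker) / α (g : Ω.ker) :=
        rootsOfUnity.val_mkOfPowEq_coe _ _
      rw [← h5]
      exact h4
    rw [div_eq_one_iff_eq (hα0 _)] at h3
    refine h2 _ x y (α g) hli (hα g) ?_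
    rw [hβ g, h3]
  have h3 : Nat.card χ.ker ∣ Nat.card (scalars ρ) := by
    let ι : χ.ker →* scalars ρ := MonoidHom.mk' (fun g => ⟨_, hχ g⟩) (fun g h => rfl)
    refine Subgroup.card_dvd_of_injective ι fun g h hgh => ?_
    exact Subtype.ext (Subtype.ext (Subtype.ext (congrArg (fun w : scalars ρ => (w : G)) hgh)))
  have h4 : χ.ker.index ∣ d := by
    rw [Subgroup.index_ker]
    have := Subgroup.card_subgroup_dvd_card χ.range
    rwa [Complex.card_rootsOfUnity] at this
  have h5 : Ω.ker.index ∣ k := by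
    rw [Subgroup.index_ker]
    have := Subgroup.card_subgroup_dvd_card Ω.range
    rwa [Complex.card_rootsOfUnity] at this
  have h6 := Subgroup.card_mul_index χ.ker
  have h7 := Subgroup.card_mul_index Ω.ker
  rw [← h6] at h7
  rw [← h7]
  calc Nat.card χ.ker * χ.ker.index * Ω.ker.index ∣ Nat.card (scalars ρ) * d * k :=
        mul_dvd_mul (mul_dvd_mul h3 h4) h5
    _ = k * d * Nat.card (scalars ρ) := by ring

/-- Separation of the points of an orbit by forms of degree `e`, for all groups acting freely on a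
hypersurface. -/
theorem separation [Finite G] {d e : ℕ} (hM : 3 ≤ M) (hd : 1 ≤ d)
    {f : MvPolynomial (Fin M) ℂ} (hf : f.IsHomogeneous d)
    (hst : ∀ g : G, ∀ p ∈ Ideal.span {f}, subst (ρ g) p ∈ Ideal.span {f})
    (hfree : ∀ v : Fin M → ℂ, v ≠ 0 → eval v f = 0 → ∀ (g : G) (μ : ℂ),
      ρ g v = μ • v → g ∈ scalars ρ)
    (he : d ≤ e + 1)
    (he2 : ∀ (x y : G) (ω : ℂ), (∀ v, ρ x (ρ y v) = ω • ρ y (ρ x v)) → M.Prime → ω ≠ 1 →
      ω ^ M = 1 → d + 1 ≤ e)
    {z : Fin M → ℂ} (hz : z ≠ 0) (hfz : eval z f = 0) :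
    ∃ F : MvPolynomial (Fin M) ℂ, F.IsHomogeneous e ∧ eval z F ≠ 0 ∧
      ∀ g : G, g ∉ scalars ρ → eval (ρ g z) F = 0 := by
  have hI : Ideal.span {f} = Ideal.span (Set.range fun _ : Unit => f) := by
    rw [Set.range_const]
  have hzero : ∀ v : Fin M → ℂ, (∀ p ∈ Ideal.span {f}, eval v p = 0) ↔ eval v f = 0 := by
    intro v
    constructor
    · intro h
      exact h f (Ideal.mem_span_singleton_self f)
    · intro h p hp
      obtain ⟨a, rfl⟩ := Ideal.mem_span_singleton'.1 hp
      rw [map_mul, h, mul_zero]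
  have hS : Free ρ (fun _ : Unit => f) (fun _ => d) :=
    free_of_ideal (fun _ => hf) hI hst (fun v hv hv0 => hfree v hv ((hzero v).1 hv0))
  have h2 : ∀ (g : G) (x y : Fin M → ℂ) (μ : ℂ), LinearIndependent ℂ ![x, y] →
      ρ g x = μ • x → ρ g y = μ • y → g ∈ scalars ρ := by
    intro g x y μ hli hx hy
    obtain ⟨s, t, hne, h0⟩ := Pool.Agent.N738.FQ.exists_zero hd hf hli
    refine hfree _ hne h0 g μ ?_
    rw [map_add, map_smul, map_smul, hx, hy, smul_add, smul_comm μ s, smul_comm μ t]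
  have hsemi : ∀ g : G, ∃ c : ℂ, ∀ x, eval (ρ g x) f = c * eval x f := by
    intro g
    obtain ⟨q, hq⟩ := Ideal.mem_span_singleton'.1 (hst g f (Ideal.mem_span_singleton_self f))
    by_cases h0 : subst (ρ g) f = 0
    · refine ⟨0, fun x => ?_⟩
      rw [← eval_subst, h0, map_zero, zero_mul]
    · have hf0 : f ≠ 0 := by
        rintro rfl
        rw [mul_zero] at hq
        exact h0 hq.symm
      have hq0 : q ≠ 0 := by
        rintro rfl
        rw [zero_mul] at hq
        exact h0 hq.symm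
      have h2 := totalDegree_mul_of_isDomain hq0 hf0
      rw [hq, (subst_isHomogeneous (ρ g) hf).totalDegree h0, hf.totalDegree hf0] at h2
      have h3 : q.totalDegree = 0 := by omega
      have h4 := totalDegree_eq_zero_iff_eq_C.1 h3
      refine ⟨coeff 0 q, fun x => ?_⟩
      rw [← eval_subst, ← hq, map_mul]
      conv_lhs => rw [h4, eval_C]
  by_cases hcomm : ∀ (x y : G) (ω : ℂ), (∀ v, ρ x (ρ y v) = ω • ρ y (ρ x v)) → ω = 1
  · have h3 := index_dvd (k := 1) (by omega) hd le_rfl hf hsemi hfree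
      (fun x y ω h => by rw [hcomm x y ω h, one_pow])
    rw [one_mul] at h3
    exact core_free hS ((Nat.le_of_dvd hd h3).trans he) hz (fun _ => hfz)
  · push Not at hcomm
    obtain ⟨x, y, ω, hxy, hω⟩ := hcomm
    obtain ⟨hMp, hωM⟩ := commutator_prime h2 (by omega) hxy hω
    have h3 := index_dvd (k := M) (by omega) hd (by omega) hf hsemi hfree
      (fun x y ω h => by
        by_cases hω : ω = 1
        · rw [hω, one_pow]
        · exact (commutator_prime h2 (by omega) h hω).2)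
    exact exceptional hS hMp hM (fun l hl hdvd => prime_ge h2 (by omega) hl hdvd) hxy hωM hω
      (Nat.le_of_dvd (by positivity) h3) (he2 x y ω hxy hMp hω hωM) hz (fun _ => hfz)

end Pool.Agent.J6H82.Fuj
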