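import Pool.Agent.J6H82.Fuj.Order
import Pool.Agent.TH144.MB.Diag

/-!
# Diagonal groups with scalars
-/

set_option autoImplicit false

namespace Pool.Agent.J6H82.Fuj

open Module MvPolynomial Pool.Agent.N212.FQ

variable {M : ℕ} {G : Type} [Group G] {ρ : Representation ℂ G (Fin M → ℂ)}

/-- Freeness for groups of diagonal matrices on complete intersections
(from `Pool.Agent.TH144.MB.Sit.exists_monomial`). -/
theorem diagonal [Finite G] {c : ℕ} {f : Fin c → MvPolynomial (Fin M) ℂ} {d : Fin c → ℕ}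
    (hf : ∀ j, (f j).IsHomogeneous (d j)) (hd : ∀ j, 0 < d j)
    {I : Ideal (MvPolynomial (Fin M) ℂ)} (hI : I = Ideal.span (Set.range f))
    (hst : ∀ g, ∀ p ∈ I, subst (ρ g) p ∈ I)
    (hfree : ∀ v : Fin M → ℂ, v ≠ 0 → (∀ p ∈ I, eval v p = 0) → ∀ (g : G) (μ : ℂ),
      ρ g v = μ • v → g ∈ scalars ρ)
    (hdiag : ∀ (g : G) (i : Fin M), ∃ a : ℂ, ρ g (Pi.single i 1) = a • Pi.single i 1)
    {e : ℕ} (he : ∑ j, (d j - 1) ≤ e)
    (χ : G →* ℂˣ) (hχ : ∀ (g : G) (c : ℂ), (∀ x, ρ g x = c • x) → (χ g : ℂ) = c ^ e)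
    {z : Fin M → ℂ} (hz : z ≠ 0) (hfz : ∀ p ∈ I, eval z p = 0) :
    ∃ F : MvPolynomial (Fin M) ℂ, (F.IsHomogeneous e ∧
      ∀ (g : G) (x : Fin M → ℂ), eval (ρ g x) F = χ g * eval x F) ∧ eval z F ≠ 0 := by
  classical
  obtain ⟨i0, hi0⟩ : ∃ i, z i ≠ 0 := by
    by_contra hcon
    push Not at hcon
    exact hz (funext hcon)
  choose a ha using hdiag
  have hs0 : ∀ i : Fin M, (Pi.single i (1 : ℂ) : Fin M → ℂ) ≠ 0 := fun i => by simp
  have ha0 : ∀ g i, a g i ≠ 0 := by
    intro g i h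
    refine rep_ne_zero (ρ := ρ) (hs0 i) g ?_
    rw [ha, h, zero_smul]
  have haeq : ∀ (b c : ℂ) (i : Fin M), b • (Pi.single i (1 : ℂ) : Fin M → ℂ) =
      c • Pi.single i 1 → b = c := fun b c i h => smul_left_injective ℂ (hs0 i) h
  let α : Fin M → G →* ℂˣ := fun i =>
    { toFun := fun g => Units.mk0 (a g i) (ha0 g i)
      map_one' := by
        refine Units.ext (haeq _ _ i ?_)
        show a 1 i • _ = (1 : ℂ) • _
        rw [← ha, map_one, one_smul, Module.End.one_apply]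
      map_mul' := by
        intro g h
        refine Units.ext (haeq _ _ i ?_)
        show a (g * h) i • _ = (a g i * a h i) • _
        rw [← ha, map_mul, Module.End.mul_apply, ha, map_smul, ha, smul_smul, mul_comm] }
  have hα : ∀ g i, (α i g : ℂ) = a g i := fun g i => rfl
  -- the matrices are diagonal
  have hρ : ∀ g x i, ρ g x i = (α i g : ℂ) * x i := by
    intro g x i
    have h1 : x = ∑ j, x j • (Pi.single j (1 : ℂ) : Fin M → ℂ) := by
      ext k
      simp [Finset.sum_apply, Pi.single_apply]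
    conv_lhs => rw [h1]
    rw [map_sum, Finset.sum_apply, Finset.sum_eq_single i]
    · rw [map_smul, ha, hα]
      simp
      ring
    · intro j _ hj
      rw [map_smul, ha]
      simp [Pi.single_apply, hj.symm]
    · intro h
      exact absurd (Finset.mem_univ i) h
  have hscal : ∀ g ∈ scalars ρ, ∀ i, α i g = α i0 g := by
    rintro g ⟨c, hc⟩ i
    have h1 : ∀ j, (α j g : ℂ) = c := by
      intro j
      refine haeq _ _ j ?_
      rw [hα, ← ha, hc]
    exact Units.ext ((h1 i).trans (h1 i0).symm)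
  -- the quotient group
  let β : Fin M → (G ⧸ scalars ρ) →* ℂˣ := fun i =>
    QuotientGroup.lift (scalars ρ) (α i * (α i0)⁻¹) (fun g hg => by
      rw [MonoidHom.mem_ker, MonoidHom.mul_apply, MonoidHom.inv_apply, hscal g hg i,
        mul_inv_cancel])
  have hβ : ∀ i (g : G), (β i (g : G ⧸ scalars ρ) : ℂ) = (α i g : ℂ) * ((α i0 g)⁻¹ : ℂˣ) := by
    intro i g
    show ((QuotientGroup.lift _ _ _ (QuotientGroup.mk g) : ℂˣ) : ℂ) = _
    rw [QuotientGroup.lift_mk]
    rfl
  let ψ : (G ⧸ scalars ρ) →* ℂˣ :=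
    QuotientGroup.lift (scalars ρ) (χ * (α i0)⁻¹ ^ e) (fun g hg => by
      obtain ⟨c, hc⟩ := hg
      have h1 : (α i0 g : ℂ) = c := by
        refine haeq _ _ i0 ?_
        rw [hα, ← ha, hc]
      have h2 : χ g = α i0 g ^ e := by
        refine Units.ext ?_
        rw [hχ g c hc, Units.val_pow_eq_pow_val, h1]
      rw [MonoidHom.mem_ker, MonoidHom.mul_apply, MonoidHom.pow_apply, MonoidHom.inv_apply, h2,
        ← mul_pow, mul_inv_cancel, one_pow])
  have hψ : ∀ g : G, ψ (g : G ⧸ scalars ρ) = χ g * ((α i0 g)⁻¹) ^ e := by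
    intro g
    show (QuotientGroup.lift _ _ _ (QuotientGroup.mk g) : ℂˣ) = _
    rw [QuotientGroup.lift_mk]
    rfl
  have hmv : ∀ (g : G) (v : Fin M → ℂ), Pool.Agent.TH144.MB.mv β (g : G ⧸ scalars ρ) v =
      (((α i0 g)⁻¹ : ℂˣ) : ℂ) • ρ g v := by
    intro g v
    ext i
    show (β i _ : ℂ) * v i = _
    rw [hβ, Pi.smul_apply, hρ, smul_eq_mul]
    ring
  have hhom : Pool.Agent.TH144.MB.Hom I := by
    rw [hI]
    refine Pool.Agent.TH144.MB.hom_span ?_
    rintro _ ⟨j, rfl⟩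
    exact ⟨_, hf j⟩
  have hzero : ∀ v, (∀ j, eval v (f j) = 0) ↔ ∀ p ∈ I, eval v p = 0 := zero_iff hI
  let S : Pool.Agent.TH144.MB.Sit ℂ (G ⧸ scalars ρ) M :=
    { I := I
      hom := hhom
      α := β
      stable := by
        intro v hv q
        obtain ⟨g, rfl⟩ := QuotientGroup.mk_surjective q
        rw [← hzero]
        intro j
        rw [hmv, eval_smul_of_isHomogeneous (hf j), ← eval_subst]
        have h1 := hst g (f j) (by rw [hI]; exact Ideal.subset_span ⟨j, rfl⟩)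
        rw [hv _ h1, mul_zero]
      free := by
        intro v hv0 hv q μ h
        obtain ⟨g, rfl⟩ := QuotientGroup.mk_surjective q
        rw [QuotientGroup.eq_one_iff]
        refine hfree v hv0 hv g ((α i0 g : ℂ) * μ) ?_
        ext i
        have h1 := h i
        rw [hβ] at h1
        rw [hρ, Pi.smul_apply, smul_eq_mul, mul_assoc, ← h1]
        have h2 : (α i0 g : ℂ) * (((α i0 g)⁻¹ : ℂˣ) : ℂ) = 1 := by
          rw [← Units.val_mul, mul_inv_cancel, Units.val_one]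
        calc (α i g : ℂ) * v i = (α i g : ℂ) * ((α i0 g : ℂ) * (((α i0 g)⁻¹ : ℂˣ) : ℂ)) * v i := by
              rw [h2, mul_one]
          _ = _ := by ring }
  have := Fintype.ofFinite (G ⧸ scalars ρ)
  have hρb : Pool.Agent.TH144.MB.TopBound S.I (∑ j, (d j - 1)) := by
    show Pool.Agent.TH144.MB.TopBound I _
    rw [hI]
    exact Pool.Agent.TH144.MB.topBound_forms f d hf hd
  obtain ⟨m, hm1, hm2, hm3⟩ := S.exists_monomial hρb hz hfz ψ he
  have hev : ∀ x : Fin M → ℂ, eval x (monomial m (1 : ℂ)) = ∏ i, x i ^ m i := by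
    intro x
    rw [eval_monomial, one_mul, Finsupp.prod_fintype _ _ (fun i => pow_zero _)]
  refine ⟨monomial m 1, ⟨isHomogeneous_monomial 1 hm1, ?_⟩, ?_⟩
  · intro g x
    rw [hev, hev]
    have h1 : ∏ i, (ρ g x i) ^ m i = (∏ i, (α i g : ℂ) ^ m i) * ∏ i, x i ^ m i := by
      rw [← Finset.prod_mul_distrib]
      exact Finset.prod_congr rfl fun i _ => by rw [hρ, mul_pow]
    rw [h1]
    congr 1
    have h2 := hm2 (g : G ⧸ scalars ρ)
    have h3 : ∏ i, (β i (g : G ⧸ scalars ρ)) ^ m i = (∏ i, α i g ^ m i) * ((α i0 g)⁻¹) ^ e := by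
      have h4 : ∀ i, β i (g : G ⧸ scalars ρ) = α i g * (α i0 g)⁻¹ := fun i => Units.ext (hβ i g)
      have h5 : ∑ i, m i = e := by
        rw [← hm1, Finsupp.degree_eq_sum]
      rw [← h5, ← Finset.prod_pow_eq_pow_sum, ← Finset.prod_mul_distrib]
      exact Finset.prod_congr rfl fun i _ => by rw [h4, mul_pow]
    have h6 : (∏ i, α i g ^ m i) * ((α i0 g)⁻¹) ^ e = χ g * ((α i0 g)⁻¹) ^ e := by
      rw [← h3, ← hψ]
      exact h2
    have h7 := mul_right_cancel h6
    have h8 := congrArg (fun u : ℂˣ => (u : ℂ)) h7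
    simpa using h8
  · rw [hev]
    exact hm3

end Pool.Agent.J6H82.Fuj
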