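import Pool.Agent.J6H82.Fuj.Kneser

/-!
# Powers of an invariant space of functions on a finite group
-/

set_option autoImplicit false

namespace Pool.Agent.J6H82.Fuj

open Module

variable {G : Type} [Group G] [Finite G]

/-- left translation -/
def L (h : G) : (G → ℂ) →ₐ[ℂ] (G → ℂ) := AlgHom.pi fun g => Pi.evalAlgHom ℂ _ (h * g)

omit [Finite G] in
theorem L_apply (h : G) (φ : G → ℂ) (g : G) : L h φ g = φ (h * g) := rfl

/-- A space of functions on `G` which is invariant under left translations, contains a function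
without zeros, and on which the subgroup `S` acts by scalars. -/
structure Inv (S : Subgroup G) (V : Submodule ℂ (G → ℂ)) : Prop where
  unit : ∃ u ∈ V, ∀ g, u g ≠ 0
  left : ∀ (h : G), ∀ φ ∈ V, L h φ ∈ V
  scal : ∀ s ∈ S, ∃ c : ℂ, ∀ φ ∈ V, ∀ g, φ (s * g) = c * φ g ∧ φ (g * s) = c * φ g

variable {S : Subgroup G} {V : Submodule ℂ (G → ℂ)}

omit [Finite G] in
theorem pow_unit (hV : ∃ u ∈ V, ∀ g, u g ≠ 0) (n : ℕ) : ∃ u ∈ V ^ n, ∀ g, u g ≠ 0 := by
  obtain ⟨u, hu, hu0⟩ := hV
  exact ⟨u ^ n, Submodule.pow_mem_pow V hu n, fun g => pow_ne_zero n (hu0 g)⟩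

omit [Finite G] in
theorem pow_left (hV : ∀ (h : G), ∀ φ ∈ V, L h φ ∈ V) (n : ℕ) (h : G) : ∀ φ ∈ V ^ n,
    L h φ ∈ V ^ n := by
  have h1 : V.map (L h).toLinearMap ≤ V := by
    rintro _ ⟨φ, hφ, rfl⟩
    exact hV h φ hφ
  have h2 : (V ^ n).map (L h).toLinearMap ≤ V ^ n := by
    rw [Submodule.map_pow]
    exact pow_le_pow_left' h1 n
  intro φ hφ
  exact h2 ⟨φ, hφ, rfl⟩

omit [Finite G] in
theorem pow_scal {s : G} {c : ℂ} (hs : ∀ φ ∈ V, ∀ g, φ (s * g) = c * φ g ∧ φ (g * s) = c * φ g)
    (n : ℕ) : ∀ φ ∈ V ^ n, ∀ g, φ (s * g) = c ^ n * φ g ∧ φ (g * s) = c ^ n * φ g := by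
  induction n with
  | zero =>
    intro φ hφ g
    rw [pow_zero] at hφ
    obtain ⟨a, rfl⟩ := Submodule.mem_one.1 hφ
    simp
  | succ n ih =>
    intro φ hφ g
    rw [pow_succ] at hφ
    refine Submodule.mul_induction_on (C := fun φ => φ (s * g) = c ^ (n + 1) * φ g ∧
      φ (g * s) = c ^ (n + 1) * φ g) hφ ?_ ?_
    · intro a ha b hb
      obtain ⟨h1, h2⟩ := ih a ha g
      obtain ⟨h3, h4⟩ := hs b hb g
      simp only [Pi.mul_apply, h1, h2, h3, h4]
      constructor <;> ring
    · rintro a b ⟨h1, h2⟩ ⟨h3, h4⟩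
      simp only [Pi.add_apply, h1, h2, h3, h4]
      constructor <;> ring

theorem finrank_le_index (hV : Inv S V) (n : ℕ) : finrank ℂ (V ^ n : Submodule ℂ (G → ℂ)) ≤
    S.index := by
  classical
  let Φ : (V ^ n : Submodule ℂ (G → ℂ)) →ₗ[ℂ] (G ⧸ S → ℂ) :=
    (LinearMap.funLeft ℂ ℂ (fun q : G ⧸ S => (Quotient.out q : G))) ∘ₗ (V ^ n).subtype
  have hΦ : Function.Injective Φ := by
    rw [← LinearMap.ker_eq_bot, LinearMap.ker_eq_bot']
    rintro ⟨φ, hφ⟩ h
    refine Subtype.ext (funext fun g => ?_)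
    have h1 : φ (Quotient.out (g : G ⧸ S)) = 0 := congrFun h (g : G ⧸ S)
    have h2 : (Quotient.out (g : G ⧸ S))⁻¹ * g ∈ S := by
      rw [← QuotientGroup.eq, QuotientGroup.out_eq']
    obtain ⟨c, hc⟩ := hV.scal _ h2
    have h3 := (pow_scal hc n φ hφ (Quotient.out (g : G ⧸ S))).2
    rw [mul_inv_cancel_left, h1, mul_zero] at h3
    exact h3
  have h1 := LinearMap.finrank_le_finrank_of_injective hΦ
  have := Fintype.ofFinite (G ⧸ S)
  rwa [finrank_fintype_fun_eq_card, ← Nat.card_eq_fintype_card, ← Subgroup.index_eq_card] at h1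

/-- the commutator relation -/
theorem omega_pow (hV : Inv S V) {x y s : G} {ω : ℂ} (hxy : x * y = s * (y * x))
    (hs : ∀ φ ∈ V, ∀ g, φ (s * g) = ω * φ g ∧ φ (g * s) = ω * φ g) (n : ℕ) :
    ω ^ (n * finrank ℂ (V ^ n : Submodule ℂ (G → ℂ))) = 1 := by
  set R := V ^ n with hR
  have hst : ∀ h : G, ∀ φ ∈ R, (L h).toLinearMap φ ∈ R := fun h φ hφ => pow_left hV.left n h φ hφ
  let A : G → Module.End ℂ R := fun h => (L h).toLinearMap.restrict (hst h)
  have hA : ∀ h (φ : R) (g : G), (A h φ : G → ℂ) g = (φ : G → ℂ) (h * g) := fun h φ g => rfl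
  have hdet : ∀ h, LinearMap.det (A h) ≠ 0 := by
    intro h h0
    have h1 : A h * A h⁻¹ = 1 := by
      refine LinearMap.ext fun φ => Subtype.ext (funext fun g => ?_)
      rw [Module.End.mul_apply, hA, hA, inv_mul_cancel_left]
      rfl
    have h2 := congrArg LinearMap.det h1
    rw [map_mul, map_one, h0, zero_mul] at h2
    exact zero_ne_one h2
  have h1 : A y * A x = ω ^ n • (A x * A y) := by
    refine LinearMap.ext fun φ => Subtype.ext (funext fun g => ?_)
    rw [Module.End.mul_apply, hA, hA, LinearMap.smul_apply, Submodule.coe_smul, Pi.smul_apply,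
      Module.End.mul_apply, hA, hA, smul_eq_mul]
    rw [← (pow_scal hs n φ φ.2 (y * (x * g))).1]
    congr 1
    rw [← mul_assoc, hxy]
    group
  have h2 := congrArg LinearMap.det h1
  rw [LinearMap.det_smul, map_mul, map_mul, mul_comm (LinearMap.det (A y))] at h2
  rw [pow_mul]
  exact (mul_right_cancel₀ (mul_ne_zero (hdet x) (hdet y)) (by rw [one_mul]; exact h2)).symm

omit [Finite G] in
theorem stab_mono (n : ℕ) : stab (V ^ n) ≤ stab (V ^ (n + 1)) := by
  intro f hf
  rw [mem_stab]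
  intro φ hφ
  rw [pow_succ] at hφ ⊢
  refine Submodule.mul_induction_on (C := fun φ => f * φ ∈ V ^ n * V) hφ ?_ ?_
  · intro a ha b hb
    rw [← mul_assoc]
    exact Submodule.mul_mem_mul (mem_stab.1 hf a ha) hb
  · intro a b ha hb
    rw [mul_add]
    exact add_mem ha hb

omit [Finite G] in
theorem stab_mono' {m n : ℕ} (h : m ≤ n) : stab (V ^ m) ≤ stab (V ^ n) := by
  induction n, h using Nat.le_induction with
  | base => exact le_rfl
  | succ n _ ih => exact ih.trans (stab_mono n)

/-- the stabilizer is invariant -/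
theorem stab_left (hV : Inv S V) (n : ℕ) (h : G) : ∀ f ∈ stab (V ^ n), L h f ∈ stab (V ^ n) := by
  intro f hf
  rw [mem_stab] at hf ⊢
  intro φ hφ
  have h1 : L h f * φ = L h (f * L h⁻¹ φ) := by
    ext g
    simp only [Pi.mul_apply, L_apply, inv_mul_cancel_left]
  rw [h1]
  exact pow_left hV.left n h _ (hf _ (pow_left hV.left n h⁻¹ φ hφ))

/-- If the stabilizer contains a function that is not constant, then it contains the indicator
function of a proper subgroup. -/
theorem exists_subgroup (hV : Inv S V) (n : ℕ) (hne : ∃ f ∈ stab (V ^ n), ∃ a b, f a ≠ f b) :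
    ∃ K : Subgroup G, S ≤ K ∧ K ≠ ⊤ ∧ ind ℂ (K : Set G) ∈ stab (V ^ n) := by
  classical
  have hleft : ∀ (h : G), ∀ f ∈ stab (V ^ n), L h f ∈ stab (V ^ n) := stab_left hV n
  let K : Subgroup G :=
    { carrier := {k | ∀ f ∈ stab (V ^ n), f k = f 1}
      mul_mem' := by
        intro a b ha hb f hf
        have h1 := hb _ (hleft a f hf)
        rw [L_apply, L_apply, mul_one, ha f hf] at h1
        exact h1
      one_mem' := fun f _ => rfl
      inv_mem' := by
        intro a ha f hf
        have h1 := ha _ (hleft a⁻¹ f hf)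
        rw [L_apply, L_apply, inv_mul_cancel, mul_one] at h1
        exact h1.symm }
  refine ⟨K, ?_, ?_, ?_⟩
  · intro s hs f hf
    obtain ⟨u, hu, hu0⟩ := pow_unit hV.unit n
    obtain ⟨c, hc⟩ := hV.scal s hs
    have h1 := (pow_scal hc n _ (mem_stab.1 hf u hu) 1).1
    have h2 := (pow_scal hc n u hu 1).1
    rw [Pi.mul_apply, Pi.mul_apply, h2] at h1
    rw [mul_one] at h1 h2
    have h3 : c ^ n * u 1 ≠ 0 := by
      rw [← h2]
      exact hu0 s
    refine mul_right_cancel₀ h3 ?_
    rw [h1]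
    ring
  · intro htop
    obtain ⟨f, hf, a, b, hab⟩ := hne
    have h1 : a ∈ K := htop ▸ Subgroup.mem_top a
    have h2 : b ∈ K := htop ▸ Subgroup.mem_top b
    exact hab ((h1 f hf).trans (h2 f hf).symm)
  · have := Fintype.ofFinite G
    have h1 : ∀ g : G, ∃ T : Set G, ind ℂ T ∈ stab (V ^ n) ∧ (K : Set G) ⊆ T ∧ (g ∉ K → g ∉ T) := by
      intro g
      by_cases hg : g ∈ K
      · refine ⟨Set.univ, ?_, Set.subset_univ _, fun h => absurd hg h⟩
        have : ind ℂ (Set.univ : Set G) = 1 := by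
          ext
          simp [ind]
        rw [this]
        exact one_mem_stab _
      · have h2 : ∃ f ∈ stab (V ^ n), f g ≠ f 1 := by
          by_contra hcon
          push Not at hcon
          exact hg hcon
        obtain ⟨f, hf, hfg⟩ := h2
        exact ⟨_, level_mem hf (f 1), fun k hk => hk f hf, fun _ => hfg⟩
    choose T hT1 hT2 hT3 using h1
    have h2 : ind ℂ (K : Set G) = ∏ g : G, ind ℂ (T g) := by
      ext k
      rw [Finset.prod_apply]
      by_cases hk : k ∈ K
      · rw [Finset.prod_eq_one]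
        · simp [ind, hk]
        · intro g _
          have : k ∈ T g := hT2 g hk
          simp [ind, this]
      · rw [Finset.prod_eq_zero (Finset.mem_univ k)]
        · simp [ind, hk]
        · simp [ind, hT3 k hk]
    rw [h2]
    have h3 : ∀ s : Finset G, ∏ g ∈ s, ind ℂ (T g) ∈ stab (V ^ n) := by
      intro s
      induction s using Finset.induction_on with
      | empty =>
        rw [Finset.prod_empty]
        exact one_mem_stab _
      | insert a s ha ih =>
        rw [Finset.prod_insert ha]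
        exact mul_mem_stab (hT1 a) ih
    exact h3 _

/-- growth of the dimensions if the stabilizers are trivial -/
theorem growth (hV : Inv S V) {p : ℕ} (hp : p.Prime) (hp3 : 3 ≤ p)
    (hfr : finrank ℂ V = p) {x y s : G} {ω : ℂ} (hxy : x * y = s * (y * x))
    (hs : ∀ φ ∈ V, ∀ g, φ (s * g) = ω * φ g ∧ φ (g * s) = ω * φ g) (hω : ω ^ p = 1) (hω1 : ω ≠ 1)
    {e : ℕ} (hst : ∀ f ∈ stab (V ^ e), ∀ a b, f a = f b) :
    ∀ b, 1 ≤ b → b ≤ e → p * b ≤ finrank ℂ (V ^ b : Submodule ℂ (G → ℂ)) +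
      (if p ∣ b then 1 else 0) := by
  haveI : Fact p.Prime := ⟨hp⟩
  have hord : orderOf ω = p := orderOf_eq_prime hω hω1
  have hdvd : ∀ n, ¬ p ∣ n → p ∣ finrank ℂ (V ^ n : Submodule ℂ (G → ℂ)) := by
    intro n hn
    have h1 := omega_pow hV hxy hs n
    rw [← orderOf_dvd_iff_pow_eq_one, hord] at h1
    exact (hp.dvd_mul.1 h1).resolve_left hn
  intro b hb
  induction b, hb using Nat.le_induction with
  | base =>
    intro _
    rw [pow_one, hfr, if_neg]
    · omega
    · intro h
      have := Nat.le_of_dvd one_pos h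
      omega
  | succ b hb ih =>
    intro hbe
    have ih := ih (by omega)
    have h1 := kneser V (V ^ b) hV.unit (pow_unit hV.unit b)
    rw [← pow_succ', hfr] at h1
    have h2 : finrank ℂ (stab (V ^ (b + 1))) ≤ 1 := by
      have h3 : stab (V ^ (b + 1)) ≤ Submodule.span ℂ {(1 : G → ℂ)} := by
        intro f hf
        rw [Submodule.mem_span_singleton]
        refine ⟨f 1, ?_⟩
        ext g
        simp only [Pi.smul_apply, Pi.one_apply, smul_eq_mul, mul_one]
        exact hst f (stab_mono' hbe hf) _ _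
      refine (Submodule.finrank_mono h3).trans ?_
      exact (finrank_span_le_card _).trans (by simp)
    by_cases hb1 : p ∣ b + 1
    · have hb2 : ¬ p ∣ b := by
        intro h
        have h3 := (Nat.dvd_add_right h).1 hb1
        have := Nat.le_of_dvd one_pos h3
        omega
      rw [if_neg hb2] at ih
      rw [if_pos hb1, mul_add]
      omega
    · rw [if_neg hb1]
      obtain ⟨m, hm⟩ := hdvd (b + 1) hb1
      rw [hm, add_zero]
      rw [hm] at h1
      have h3 : p * b < p * m := by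
        split_ifs at ih <;> omega
      have h4 : b < m := lt_of_mul_lt_mul_left h3 (Nat.zero_le p)
      exact Nat.mul_le_mul_left p h4

end Pool.Agent.J6H82.Fuj
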