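import Mathlib

/-!
# Kneser's theorem for products of spaces of functions on a finite set
-/

set_option autoImplicit false

namespace Pool.Agent.J6H82.Fuj

open Module

variable {W : Type} [Finite W] {K : Type} [Field K]

/-- the functions `f` with `f X ⊆ X` -/
def stab (X : Submodule K (W → K)) : Submodule K (W → K) := X / X

omit [Finite W] in
theorem mem_stab {X : Submodule K (W → K)} {f : W → K} : f ∈ stab X ↔ ∀ x ∈ X, f * x ∈ X :=
  Submodule.mem_div_iff_forall_mul_mem

omit [Finite W] in
theorem one_mem_stab (X : Submodule K (W → K)) : (1 : W → K) ∈ stab X :=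
  mem_stab.2 fun x hx => by rwa [one_mul]

omit [Finite W] in
theorem mul_mem_stab {X : Submodule K (W → K)} {f g : W → K} (hf : f ∈ stab X)
    (hg : g ∈ stab X) : f * g ∈ stab X :=
  mem_stab.2 fun x hx => by
    rw [mul_assoc]
    exact mem_stab.1 hf _ (mem_stab.1 hg _ hx)

/-- the indicator function of a set -/
noncomputable def ind (K : Type) [Field K] (T : Set W) : W → K := T.indicator 1

/-- the sets whose indicator functions are in the stabilizer -/
def idem (X : Submodule K (W → K)) : Set (Set W) := {T | ind K T ∈ stab X}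

theorem level_mem {X : Submodule K (W → K)} {f : W → K} (hf : f ∈ stab X) (c : K) :
    ind K {w | f w = c} ∈ stab X := by
  classical
  have := Fintype.ofFinite W
  set S : Subalgebra K (W → K) := (stab X).toSubalgebra (one_mem_stab X)
    (fun _ _ => mul_mem_stab) with hS
  have hfS : f ∈ S := hf
  by_cases hc : c ∈ Finset.univ.image f
  · have h1 : Polynomial.aeval f (Lagrange.basis (Finset.univ.image f) id c) ∈ S :=
      Algebra.adjoin_le (Set.singleton_subset_iff.2 hfS)
        (Polynomial.aeval_mem_adjoin_singleton K f)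
    have h2 : Polynomial.aeval f (Lagrange.basis (Finset.univ.image f) id c) =
        ind K {w | f w = c} := by
      ext w
      rw [Polynomial.aeval_fn_apply, ind, Set.indicator_apply]
      have hw : f w ∈ Finset.univ.image f := Finset.mem_image_of_mem _ (Finset.mem_univ _)
      split_ifs with h
      · have h3 : f w = c := h
        rw [h3, Polynomial.coe_aeval_eq_eval]
        have := Lagrange.eval_basis_self (s := Finset.univ.image f) (v := id)
          (Function.injective_id.injOn) hc
        simpa using this
      · have h3 : c ≠ f w := fun h' => h h'.symm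
        rw [Polynomial.coe_aeval_eq_eval]
        have := Lagrange.eval_basis_of_ne (s := Finset.univ.image f) (v := id) h3 hw
        simpa using this
    rw [h2] at h1
    exact h1
  · have h1 : ind K {w | f w = c} = 0 := by
      ext w
      rw [ind, Set.indicator_apply, if_neg]
      · rfl
      · intro h
        exact hc (Finset.mem_image.2 ⟨w, Finset.mem_univ _, h⟩)
    rw [h1]
    exact Submodule.zero_mem _

theorem stab_eq_span (X : Submodule K (W → K)) :
    stab X = Submodule.span K (ind K '' idem X) := by
  classical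
  have := Fintype.ofFinite W
  refine le_antisymm ?_ ?_
  · intro f hf
    have h1 : f = ∑ c ∈ Finset.univ.image f, c • ind K {w | f w = c} := by
      ext w
      rw [Finset.sum_apply, Finset.sum_eq_single (f w)]
      · simp [ind]
      · intro c _ hc
        rw [Pi.smul_apply, ind, Set.indicator_apply, if_neg]
        · simp
        · intro h
          exact hc (h : f w = c).symm
      · intro h
        exact absurd (Finset.mem_image_of_mem _ (Finset.mem_univ _)) h
    rw [h1]
    refine Submodule.sum_mem _ fun c _ => Submodule.smul_mem _ _ (Submodule.subset_span ?_)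
    exact ⟨_, level_mem hf c, rfl⟩
  · rw [Submodule.span_le]
    rintro _ ⟨T, hT, rfl⟩
    exact hT

/-- **Kneser's theorem** for products of spaces of functions on a finite set. -/
theorem kneser [Infinite K] (X Y : Submodule K (W → K)) (hX : ∃ u ∈ X, ∀ w, u w ≠ 0)
    (hY : ∃ v ∈ Y, ∀ w, v w ≠ 0) :
    finrank K X + finrank K Y ≤ finrank K (X * Y : Submodule K (W → K)) +
      finrank K (stab (X * Y)) := by
  classical
  have := Fintype.ofFinite W
  induction hn : finrank K X using Nat.strong_induction_on generalizing X Y with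
  | _ n ih =>
  obtain ⟨u, huX, hu⟩ := hX
  -- the transform
  let mc : (W → K) → ((W → K) →ₗ[K] (W → K)) := fun e => LinearMap.mulLeft K (e / u)
  have hmc : ∀ e x, mc e x = e / u * x := fun e x => rfl
  have hinj : ∀ e : W → K, (∀ w, e w ≠ 0) → Function.Injective (mc e) := by
    intro e he x y hxy
    ext w
    have h1 := congrFun hxy w
    simp only [hmc, Pi.mul_apply, Pi.div_apply] at h1
    exact mul_left_cancel₀ (div_ne_zero (he w) (hu w)) h1
  have hfr : ∀ e : W → K, (∀ w, e w ≠ 0) → ∀ Z : Submodule K (W → K),
      finrank K (Z.map (mc e)) = finrank K Z := by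
    intro e he Z
    exact (LinearEquiv.finrank_eq (Submodule.equivMapOfInjective (mc e) (hinj e he) Z)).symm
  let Xe : (W → K) → Submodule K (W → K) := fun e => X ⊓ Y.comap (mc e)
  let Ye : (W → K) → Submodule K (W → K) := fun e => Y ⊔ X.map (mc e)
  have hXe : ∀ e x, x ∈ Xe e ↔ x ∈ X ∧ e / u * x ∈ Y := fun e x => Iff.rfl
  have hYe1 : ∀ e, ∀ y ∈ Y, y ∈ Ye e := fun e y hy => Submodule.mem_sup_left hy
  have hYe2 : ∀ e, ∀ x ∈ X, e / u * x ∈ Ye e := fun e x hx =>
    Submodule.mem_sup_right ⟨x, hx, rfl⟩
  have hdim : ∀ e : W → K, (∀ w, e w ≠ 0) →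
      finrank K (Xe e) + finrank K (Ye e) = finrank K X + finrank K Y := by
    intro e he
    have h1 : (Xe e).map (mc e) = X.map (mc e) ⊓ Y :=
      (Submodule.map_inf_eq_map_inf_comap (f := mc e) (p := X) (p' := Y)).symm
    have h2 := hfr e he (Xe e)
    have h3 := hfr e he X
    rw [h1] at h2
    have h4 := Submodule.finrank_sup_add_finrank_inf_eq (X.map (mc e)) Y
    have h5 : Ye e = X.map (mc e) ⊔ Y := sup_comm _ _
    rw [← h2, h5, ← h3]
    omega
  have hle : ∀ e, Xe e * Ye e ≤ X * Y := by
    intro e
    rw [Submodule.mul_le]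
    rintro x hx y hy
    obtain ⟨y1, hy1, y2, ⟨x2, hx2, rfl⟩, rfl⟩ := Submodule.mem_sup.1 hy
    obtain ⟨hx1, hx3⟩ := (hXe e x).1 hx
    rw [mul_add]
    refine add_mem (Submodule.mul_mem_mul hx1 hy1) ?_
    rw [hmc]
    have h1 : x * (e / u * x2) = x2 * (e / u * x) := by ring
    rw [h1]
    exact Submodule.mul_mem_mul hx2 hx3
  have hdiv : ∀ e : W → K, e / u * u = e := by
    intro e
    ext w
    simp only [Pi.mul_apply, Pi.div_apply]
    exact div_mul_cancel₀ _ (hu w)
  have huXe : ∀ e ∈ Y, u ∈ Xe e := by
    intro e he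
    refine (hXe e u).2 ⟨huX, ?_⟩
    rwa [hdiv]
  -- the elements `y` of `Y` with `(y / u) X ⊆ Y`
  let T : Submodule K (W → K) :=
    { carrier := {y | y ∈ Y ∧ ∀ x ∈ X, y / u * x ∈ Y}
      zero_mem' := ⟨Y.zero_mem, fun x _ => by
        have h1 : (0 : W → K) / u * x = 0 := by
          ext w
          simp
        rw [h1]
        exact Y.zero_mem⟩
      add_mem' := by
        rintro a b ⟨ha1, ha2⟩ ⟨hb1, hb2⟩
        refine ⟨Y.add_mem ha1 hb1, fun x hx => ?_⟩
        have h1 : (a + b) / u * x = a / u * x + b / u * x := by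
          ext w
          simp only [Pi.mul_apply, Pi.div_apply, Pi.add_apply]
          ring
        rw [h1]
        exact Y.add_mem (ha2 x hx) (hb2 x hx)
      smul_mem' := by
        rintro c a ⟨ha1, ha2⟩
        refine ⟨Y.smul_mem c ha1, fun x hx => ?_⟩
        have h1 : c • a / u * x = c • (a / u * x) := by
          ext w
          simp only [Pi.mul_apply, Pi.div_apply, Pi.smul_apply, smul_eq_mul]
          ring
        rw [h1]
        exact Y.smul_mem c (ha2 x hx) }
  by_cases hT : Y ≤ T
  · -- `X Y = u Y`
    have h1 : X * Y = Y.map (LinearMap.mulLeft K u) := by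
      refine le_antisymm ?_ ?_
      · rw [Submodule.mul_le]
        intro x hx y hy
        refine ⟨y / u * x, (hT hy).2 x hx, ?_⟩
        rw [LinearMap.mulLeft_apply]
        have h2 : u * (y / u * x) = (y / u * u) * x := by ring
        rw [h2, hdiv, mul_comm]
      · rintro _ ⟨y, hy, rfl⟩
        exact Submodule.mul_mem_mul huX hy
    have hinju : Function.Injective (LinearMap.mulLeft K u) := by
      intro x y hxy
      ext w
      exact mul_left_cancel₀ (hu w) (congrFun hxy w)
    have h2 : finrank K (X * Y : Submodule K (W → K)) = finrank K Y := by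
      rw [h1]
      exact (LinearEquiv.finrank_eq (Submodule.equivMapOfInjective _ hinju Y)).symm
    have h3 : X.map (mc 1) ≤ stab (X * Y) := by
      rintro _ ⟨x, hx, rfl⟩
      rw [mem_stab]
      intro z hz
      rw [h1] at hz
      obtain ⟨y, hy, rfl⟩ := hz
      rw [hmc, LinearMap.mulLeft_apply]
      have h4 : (1 : W → K) / u * x * (u * y) = (1 / u * u) * (x * y) := by ring
      rw [h4, hdiv, one_mul]
      exact Submodule.mul_mem_mul hx hy
    have h4 := Submodule.finrank_mono h3
    rw [hfr 1 (fun w => one_ne_zero)] at h4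
    omega
  -- the other case
  have hcase : ∀ e ∈ Y, (∀ w, e w ≠ 0) → e ∉ T →
      finrank K X + finrank K Y ≤ finrank K (Xe e * Ye e : Submodule K (W → K)) +
        finrank K (stab (Xe e * Ye e)) := by
    intro e heY he heT
    rw [← hdim e he]
    refine ih _ ?_ (Xe e) (Ye e) ⟨u, huXe e heY, hu⟩ ⟨e, hYe1 e e heY, he⟩ rfl
    rw [← hn]
    refine Submodule.finrank_lt_finrank_of_lt (lt_of_le_of_ne inf_le_left ?_)
    intro h
    refine heT ⟨heY, fun x hx => ?_⟩
    have h1 : x ∈ Xe e := by
      rw [h]
      exact hx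
    exact ((hXe e x).1 h1).2
  -- pigeonhole
  let Z : (W → K) → Set (Set W) := fun e => idem (Xe e * Ye e)
  let P : Set (Set W) → Submodule K (W → K) := fun I =>
    Submodule.span K {e | e ∈ Y ∧ (∀ w, e w ≠ 0) ∧ e ∉ T ∧ Z e = I}
  let Q : Option (W ⊕ Set (Set W)) → Submodule K Y := fun o =>
    match o with
    | none => T.comap Y.subtype
    | some (Sum.inl w) => (LinearMap.ker (LinearMap.proj (R := K) (φ := fun _ : W => K) w)).comap
        Y.subtype
    | some (Sum.inr I) => (P I).comap Y.subtype
  have hcov : ⋃ o, (Q o : Set Y) = Set.univ := by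
    rw [Set.eq_univ_iff_forall]
    rintro ⟨y, hy⟩
    rw [Set.mem_iUnion]
    by_cases hyT : y ∈ T
    · exact ⟨none, hyT⟩
    by_cases hyw : ∀ w, y w ≠ 0
    · refine ⟨some (Sum.inr (Z y)), ?_⟩
      exact Submodule.subset_span ⟨hy, hyw, hyT, rfl⟩
    · push Not at hyw
      obtain ⟨w, hw⟩ := hyw
      exact ⟨some (Sum.inl w), hw⟩
  obtain ⟨o, ho⟩ := Subspace.exists_eq_top_of_iUnion_eq_univ hcov
  have ho' : ∀ y (hy : y ∈ Y), (⟨y, hy⟩ : Y) ∈ Q o := fun y hy => by
    rw [ho]
    exact Submodule.mem_top
  match o, ho' with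
  | none, ho' => exact absurd (fun y hy => ho' y hy) hT
  | some (Sum.inl w), ho' =>
    obtain ⟨v, hv, hv0⟩ := hY
    exact absurd (ho' v hv) (hv0 w)
  | some (Sum.inr I), ho' =>
    -- an element
    have hne : ∃ e, e ∈ Y ∧ (∀ w, e w ≠ 0) ∧ e ∉ T ∧ Z e = I := by
      by_contra hcon
      have h1 : {e | e ∈ Y ∧ (∀ w, e w ≠ 0) ∧ e ∉ T ∧ Z e = I} = ∅ := by
        rw [Set.eq_empty_iff_forall_notMem]
        exact fun e he => hcon ⟨e, he⟩
      refine hT fun y hy => ?_
      have h2 : y ∈ P I := ho' y hy
      have h3 : P I = ⊥ := by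
        show Submodule.span K _ = _
        rw [h1, Submodule.span_empty]
      rw [h3, Submodule.mem_bot] at h2
      rw [h2]
      exact T.zero_mem
    obtain ⟨e, he1, he2, he3, he4⟩ := hne
    have h1 := hcase e he1 he2 he3
    have h2 := Submodule.finrank_mono (hle e)
    have h3 : stab (Xe e * Ye e) ≤ stab (X * Y) := by
      intro f hf
      rw [mem_stab]
      intro z hz
      refine Submodule.mul_induction_on hz ?_ ?_
      · intro x hx y hy
        have h4 : y ∈ P I := ho' y hy
        refine Submodule.span_induction (p := fun y _ => f * (x * y) ∈ X * Y) ?_ ?_ ?_ ?_ h4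
        · rintro e' ⟨he1', he2', he3', he4'⟩
          have h5 : stab (Xe e' * Ye e') = stab (Xe e * Ye e) := by
            rw [stab_eq_span, stab_eq_span]
            have h6 : idem (Xe e' * Ye e') = idem (Xe e * Ye e) := he4'.trans he4.symm
            rw [h6]
          have h6 : f ∈ stab (Xe e' * Ye e') := by
            rw [h5]
            exact hf
          have h7 : x * e' ∈ Xe e' * Ye e' := by
            have h8 : x * e' = u * (e' / u * x) := by
              have h9 : u * (e' / u * x) = (e' / u * u) * x := by ring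
              rw [h9, hdiv, mul_comm]
            rw [h8]
            exact Submodule.mul_mem_mul (huXe e' he1') (hYe2 e' x hx)
          exact hle e' (mem_stab.1 h6 _ h7)
        · rw [mul_zero, mul_zero]
          exact Submodule.zero_mem _
        · intro a b _ _ ha hb
          rw [mul_add, mul_add]
          exact add_mem ha hb
        · intro c a _ ha
          rw [mul_smul_comm, mul_smul_comm]
          exact Submodule.smul_mem _ c ha
      · intro a b ha hb
        rw [mul_add]
        exact add_mem ha hb
    have h4 := Submodule.finrank_mono h3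
    omega

end Pool.Agent.J6H82.Fuj
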