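import Pool.Agent.J6H82.Fuj.Growth
import Pool.Agent.N212.FQ.F

/-!
# Forms on an orbit
-/

set_option autoImplicit false

namespace Pool.Agent.J6H82.Fuj

open Module MvPolynomial Pool.Agent.N212.FQ

variable {M : ℕ} {G : Type} [Group G] (ρ : Representation ℂ G (Fin M → ℂ)) (z : Fin M → ℂ)

/-- the values of a polynomial on an orbit -/
noncomputable def evo : MvPolynomial (Fin M) ℂ →ₐ[ℂ] (G → ℂ) :=
  AlgHom.pi fun g => MvPolynomial.aeval (ρ g z)

theorem evo_apply (F : MvPolynomial (Fin M) ℂ) (g : G) : evo ρ z F g = eval (ρ g z) F := by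
  show MvPolynomial.aeval (ρ g z) F = _
  rw [aeval_eq_eval]

/-- the linear forms on an orbit -/
noncomputable def V : Submodule ℂ (G → ℂ) :=
  (homogeneousSubmodule (Fin M) ℂ 1).map (evo ρ z).toLinearMap

theorem mem_V_pow (n : ℕ) (φ : G → ℂ) : φ ∈ V ρ z ^ n ↔
    ∃ F : MvPolynomial (Fin M) ℂ, F.IsHomogeneous n ∧ ∀ g, φ g = eval (ρ g z) F := by
  rw [V, ← Submodule.map_pow, homogeneousSubmodule_one_pow]
  constructor
  · rintro ⟨F, hF, rfl⟩
    exact ⟨F, hF, fun g => evo_apply ρ z F g⟩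
  · rintro ⟨F, hF, h⟩
    exact ⟨F, hF, funext fun g => by rw [h g]; exact evo_apply ρ z F g⟩

theorem mem_V (φ : G → ℂ) : φ ∈ V ρ z ↔
    ∃ F : MvPolynomial (Fin M) ℂ, F.IsHomogeneous 1 ∧ ∀ g, φ g = eval (ρ g z) F := by
  rw [← mem_V_pow, pow_one]

variable {ρ z}

theorem V_scal {s : G} {c : ℂ} (hs : ∀ x, ρ s x = c • x) :
    ∀ φ ∈ V ρ z, ∀ g, φ (s * g) = c * φ g ∧ φ (g * s) = c * φ g := by
  intro φ hφ g
  obtain ⟨F, hF, h⟩ := (mem_V ρ z φ).1 hφ
  rw [h, h, h, map_mul, map_mul, Module.End.mul_apply, Module.End.mul_apply, hs, hs, map_smul,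
    eval_smul_of_isHomogeneous hF, pow_one]
  exact ⟨rfl, rfl⟩

theorem exists_functional_orbit [Finite G] (hz : z ≠ 0) :
    ∃ l : (Fin M → ℂ) →ₗ[ℂ] ℂ, ∀ g : G, l (ρ g z) ≠ 0 := by
  classical
  by_contra hcon
  push Not at hcon
  let p : G → Submodule ℂ ((Fin M → ℂ) →ₗ[ℂ] ℂ) := fun g =>
    LinearMap.ker (LinearMap.applyₗ (R := ℂ) (ρ g z))
  have hcov : ⋃ g, (p g : Set ((Fin M → ℂ) →ₗ[ℂ] ℂ)) = Set.univ := by
    rw [Set.eq_univ_iff_forall]
    intro l
    rw [Set.mem_iUnion]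
    exact hcon l
  obtain ⟨g, hg⟩ := Subspace.exists_eq_top_of_iUnion_eq_univ hcov
  obtain ⟨l, hl, -⟩ := exists_functional (⊥ : Submodule ℂ (Fin M → ℂ)) (w := ρ g z)
    (by simpa using rep_ne_zero hz g)
  have h1 : l ∈ p g := hg ▸ Submodule.mem_top
  exact hl h1

theorem V_inv [Finite G] (hz : z ≠ 0) : Inv (scalars ρ) (V ρ z) where
  unit := by
    obtain ⟨l, hl⟩ := exists_functional_orbit (ρ := ρ) hz
    refine ⟨evo ρ z (lin l), (mem_V ρ z _).2 ⟨lin l, lin_isHomogeneous l, evo_apply ρ z _⟩, ?_⟩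
    intro g
    rw [evo_apply, eval_lin]
    exact hl g
  left := by
    intro h φ hφ
    obtain ⟨F, hF, hφ⟩ := (mem_V ρ z φ).1 hφ
    refine (mem_V ρ z _).2 ⟨subst (ρ h) F, subst_isHomogeneous _ hF, fun g => ?_⟩
    rw [L_apply, hφ, eval_subst, map_mul, Module.End.mul_apply]
  scal := by
    rintro s ⟨c, hc⟩
    exact ⟨c, V_scal hc⟩

theorem finrank_V_le : finrank ℂ (V ρ z) ≤ M := by
  have h1 : V ρ z = Submodule.span ℂ (Set.range fun i => evo ρ z (X i)) := by
    rw [V, homogeneousSubmodule_one_eq_span_X, Submodule.map_span, ← Set.range_comp]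
    rfl
  rw [h1]
  exact (finrank_range_le_card _).trans (by simp)

theorem finrank_V_pos [Finite G] (hz : z ≠ 0) : 0 < finrank ℂ (V ρ z) := by
  obtain ⟨u, hu, hu0⟩ := (V_inv (ρ := ρ) hz).unit
  rw [Module.finrank_pos_iff]
  exact ⟨⟨⟨u, hu⟩, 0, fun h => hu0 1 (congrFun (congrArg Subtype.val h) 1)⟩⟩

/-- restriction to a subgroup -/
theorem free_restrict {J : Type} {f : J → MvPolynomial (Fin M) ℂ} {d : J → ℕ} (hS : Free ρ f d)
    (K : Subgroup G) : Free (ρ.comp K.subtype) f d where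
  hom := hS.hom
  stable g := hS.stable g
  stableT g := hS.stableT g
  free v hv hfv g μ h := hS.free v hv hfv g μ h

theorem index_restrict (K : Subgroup G) :
    (scalars (ρ.comp K.subtype : Representation ℂ K (Fin M → ℂ))).index =
      (scalars ρ).relIndex K := by
  rfl

/-- The exceptional case: `M` is an odd prime and there are `x`, `y` with a commutator that is a
scalar `ω ≠ 1`. -/
theorem exceptional [Finite G] {J : Type} {f : J → MvPolynomial (Fin M) ℂ} {dd : J → ℕ}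
    (hS : Free ρ f dd) (hM : M.Prime) (hM3 : 3 ≤ M)
    (hprime : ∀ l : ℕ, l.Prime → l ∣ (scalars ρ).index → M ≤ l)
    {x y : G} {ω : ℂ} (hxy : ∀ v, ρ x (ρ y v) = ω • ρ y (ρ x v)) (hω : ω ^ M = 1) (hω1 : ω ≠ 1)
    {d e : ℕ} (hd : (scalars ρ).index ≤ M * d) (hde : d + 1 ≤ e)
    (hz : z ≠ 0) (hfz : ∀ j, eval z (f j) = 0) :
    ∃ F : MvPolynomial (Fin M) ℂ, F.IsHomogeneous e ∧ eval z F ≠ 0 ∧
      ∀ g : G, g ∉ scalars ρ → eval (ρ g z) F = 0 := by
  classical
  have hV := V_inv (ρ := ρ) hz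
  -- the commutator
  set s : G := x * y * (y * x)⁻¹ with hs
  have hsxy : x * y = s * (y * x) := by rw [hs, inv_mul_cancel_right]
  have hsω : ∀ v, ρ s v = ω • v := by
    intro v
    have h1 : v = ρ (y * x) (ρ (y * x)⁻¹ v) := by
      rw [← Module.End.mul_apply, ← map_mul, mul_inv_cancel, map_one, Module.End.one_apply]
    rw [h1, ← Module.End.mul_apply, ← map_mul, ← hsxy, map_mul, Module.End.mul_apply, hxy,
      map_mul ρ y x, Module.End.mul_apply]
  have hsV := V_scal (z := z) hsω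
  have hfr : finrank ℂ (V ρ z) = M := by
    have h1 := omega_pow hV hsxy hsV 1
    haveI : Fact M.Prime := ⟨hM⟩
    rw [pow_one, one_mul, ← orderOf_dvd_iff_pow_eq_one, orderOf_eq_prime hω hω1] at h1
    exact le_antisymm finrank_V_le (Nat.le_of_dvd (finrank_V_pos hz) h1)
  by_cases hst : ∀ f ∈ stab (V ρ z ^ e), ∀ a b, f a = f b
  · exfalso
    have h1 := growth hV hM hM3 hfr hsxy hsV hω hω1 hst e (by omega) le_rfl
    have h2 := finrank_le_index hV e
    have h3 : M * e ≤ M * d + 1 := by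
      split_ifs at h1 <;> omega
    have h4 : M * (d + 1) ≤ M * e := Nat.mul_le_mul_left M hde
    rw [mul_add] at h4
    omega
  · push Not at hst
    obtain ⟨K, hK1, hK2, hK3⟩ := exists_subgroup hV e hst
    have hKi : M ≤ K.index := by
      have h1 : K.index ≠ 1 := fun h => hK2 (Subgroup.index_eq_one.1 h)
      have h2 := hprime _ (Nat.minFac_prime h1) ((Nat.minFac_dvd _).trans
        (Subgroup.index_dvd_of_le hK1))
      exact h2.trans (Nat.minFac_le (Nat.pos_of_ne_zero Subgroup.index_ne_zero_of_finite))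
    have h1 := Subgroup.relIndex_mul_index hK1
    have h2 : (scalars ρ).relIndex K ≤ d := by
      have h3 : (scalars ρ).relIndex K * M ≤ M * d := by
        calc _ ≤ (scalars ρ).relIndex K * K.index := Nat.mul_le_mul_left _ hKi
          _ = _ := h1
          _ ≤ _ := hd
      rw [mul_comm M d] at h3
      exact Nat.le_of_mul_le_mul_right h3 (by omega)
    obtain ⟨F, hF1, hF2, hF3⟩ := core_free (free_restrict hS K) (e := e) (by
      rw [index_restrict]
      omega) hz hfz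
    have h4 : ind ℂ (K : Set G) * evo ρ z F ∈ V ρ z ^ e :=
      mem_stab.1 hK3 _ ((mem_V_pow ρ z e _).2 ⟨F, hF1, evo_apply ρ z F⟩)
    obtain ⟨F', hF'1, hF'2⟩ := (mem_V_pow ρ z e _).1 h4
    refine ⟨F', hF'1, ?_, ?_⟩
    · have h5 := hF'2 1
      rw [Pi.mul_apply, evo_apply] at h5
      have h6 : ρ (1 : G) z = z := by rw [map_one, Module.End.one_apply]
      rw [h6] at h5
      rw [← h5]
      refine mul_ne_zero ?_ hF2
      simp [ind, K.one_mem]
    · intro g hg
      rw [← hF'2 g, Pi.mul_apply, evo_apply]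
      by_cases hgK : g ∈ K
      · have h5 := hF3 ⟨g, hgK⟩ (fun h => hg h)
        have h6 : eval (ρ g z) F = 0 := h5
        rw [h6, mul_zero]
      · simp [ind, hgK]

end Pool.Agent.J6H82.Fuj
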