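import Pool.Agent.J6H82.Fuj.Order
import Pool.Agent.J6H88.FQ.Hyp

/-!
# Separation of two orbits and of tangent vectors by products
-/

set_option autoImplicit false

namespace Pool.Agent.J6H82.Fuj

open Module MvPolynomial Pool.Agent.N212.FQ

variable {M : ℕ} {G : Type} [Group G] {ρ : Representation ℂ G (Fin M → ℂ)}

/-- the forms of degree `a` separate the points of the orbits of the zeros of `f` -/
def Sep (ρ : Representation ℂ G (Fin M → ℂ)) (f : MvPolynomial (Fin M) ℂ) (a : ℕ) : Prop :=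
  ∀ z : Fin M → ℂ, z ≠ 0 → eval z f = 0 → ∃ F : MvPolynomial (Fin M) ℂ,
    F.IsHomogeneous a ∧ eval z F ≠ 0 ∧ ∀ g : G, g ∉ scalars ρ → eval (ρ g z) F = 0

variable {f : MvPolynomial (Fin M) ℂ}

/-- a form of degree `a + 1` which vanishes on an orbit and not at a point outside of the orbit -/
theorem Sep.two [Finite G] {a : ℕ} (h : Sep ρ f a)
    (hst : ∀ (g : G) (v : Fin M → ℂ), eval v f = 0 → eval (ρ g v) f = 0)
    {y z : Fin M → ℂ} (hy : y ≠ 0) (hz : z ≠ 0) (hfy : eval y f = 0) (hfz : eval z f = 0)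
    (hyz : ∀ (g : G) (t : ℂ), z ≠ t • ρ g y) :
    ∃ F : MvPolynomial (Fin M) ℂ, F.IsHomogeneous (a + 1) ∧ eval z F ≠ 0 ∧
      ∀ g : G, eval (ρ g y) F = 0 := by
  classical
  have := Fintype.ofFinite G
  choose F hF1 hF2 hF3 using fun g : G => h (ρ g y) (rep_ne_zero hy g) (hst g y hfy)
  by_cases hg : ∃ g, eval z (F g) ≠ 0
  · obtain ⟨g, hg⟩ := hg
    obtain ⟨l, hl, hl'⟩ := exists_functional (Submodule.span ℂ {ρ g y}) (w := z) (by
      intro hmem
      obtain ⟨t, ht⟩ := Submodule.mem_span_singleton.1 hmem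
      exact hyz g t ht.symm)
    refine ⟨F g * lin l, (hF1 g).mul (lin_isHomogeneous l), ?_, ?_⟩
    · rw [map_mul, eval_lin]
      exact mul_ne_zero hg hl
    · intro k
      have hk : ρ k y = ρ (k * g⁻¹) (ρ g y) := by
        rw [← Module.End.mul_apply, ← map_mul, inv_mul_cancel_right]
      by_cases hkg : k * g⁻¹ ∈ scalars ρ
      · obtain ⟨c, hc⟩ := hkg
        rw [map_mul, eval_lin, hk, hc, map_smul, hl' _ (Submodule.mem_span_singleton_self _),
          smul_zero, mul_zero]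
      · rw [map_mul, hk, hF3 g _ hkg, zero_mul]
  · push Not at hg
    obtain ⟨F0, h01, h02, -⟩ := h z hz hfz
    obtain ⟨l, hl, -⟩ := exists_functional (⊥ : Submodule ℂ (Fin M → ℂ)) (w := z) (by simpa using hz)
    have hcard : (Nat.card (scalars ρ) : ℂ) ≠ 0 := by
      rw [Nat.cast_ne_zero]
      exact Nat.card_pos.ne'
    set F1 : MvPolynomial (Fin M) ℂ := F0 - ∑ g : G,
      C ((Nat.card (scalars ρ) : ℂ)⁻¹ * (eval (ρ g y) F0 / eval (ρ g y) (F g))) * F g with hF1def
    have hF1hom : F1.IsHomogeneous a := by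
      refine h01.sub (IsHomogeneous.sum _ _ _ fun g _ => ?_)
      have := (isHomogeneous_C (Fin M) ((Nat.card (scalars ρ) : ℂ)⁻¹ *
        (eval (ρ g y) F0 / eval (ρ g y) (F g)))).mul (hF1 g)
      simpa using this
    have hF1z : eval z F1 = eval z F0 := by
      rw [hF1def, map_sub, map_sum, Finset.sum_eq_zero, sub_zero]
      intro g _
      rw [map_mul, hg g, mul_zero]
    have hF1y : ∀ k : G, eval (ρ k y) F1 = 0 := by
      intro k
      have hterm : ∀ g : G, eval (ρ k y) (C ((Nat.card (scalars ρ) : ℂ)⁻¹ *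
          (eval (ρ g y) F0 / eval (ρ g y) (F g))) * F g) =
          if k * g⁻¹ ∈ scalars ρ then (Nat.card (scalars ρ) : ℂ)⁻¹ * eval (ρ k y) F0 else 0 := by
        intro g
        have hk : ρ k y = ρ (k * g⁻¹) (ρ g y) := by
          rw [← Module.End.mul_apply, ← map_mul, inv_mul_cancel_right]
        split_ifs with hkg
        · obtain ⟨c, hc⟩ := hkg
          have hc0 : c ≠ 0 := by
            rintro rfl
            have h1 := hc (ρ g y)
            rw [zero_smul] at h1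
            exact rep_ne_zero (rep_ne_zero hy g) _ h1
          rw [map_mul, eval_C, hk, hc, eval_smul_of_isHomogeneous (hF1 g),
            eval_smul_of_isHomogeneous h01]
          have := hF2 g
          field_simp
        · rw [map_mul, eval_C, hk, hF3 g _ hkg, mul_zero]
      rw [hF1def, map_sub, map_sum, Finset.sum_congr rfl fun g _ => hterm g, ← Finset.sum_filter,
        Finset.sum_const, nsmul_eq_mul]
      have hcf : (Finset.univ.filter fun g : G => k * g⁻¹ ∈ scalars ρ).card =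
          Nat.card (scalars ρ) := by
        rw [← Fintype.card_subtype, ← Nat.card_eq_fintype_card]
        refine Nat.card_congr (Equiv.subtypeEquiv ((Equiv.inv G).trans (Equiv.mulLeft k))
          fun g => ?_)
        simp
      rw [hcf, ← mul_assoc, mul_inv_cancel₀ hcard, one_mul, sub_self]
    refine ⟨F1 * lin l, hF1hom.mul (lin_isHomogeneous l), ?_, fun k => ?_⟩
    · rw [map_mul, eval_lin, hF1z]
      exact mul_ne_zero h02 hl
    · rw [map_mul, hF1y k, zero_mul]

/-- separation of the points of two orbits -/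
theorem Sep.points [Finite G] {a b e : ℕ} (ha : Sep ρ f a) (hb : Sep ρ f b)
    (he : a + 1 + b = e)
    (hst : ∀ (g : G) (v : Fin M → ℂ), eval v f = 0 → eval (ρ g v) f = 0)
    {y z : Fin M → ℂ} (hy : y ≠ 0) (hz : z ≠ 0) (hfy : eval y f = 0) (hfz : eval z f = 0)
    (hyz : ∀ (g : G) (t : ℂ), z ≠ t • ρ g y) :
    ∃ F : MvPolynomial (Fin M) ℂ, F.IsHomogeneous e ∧ eval z F ≠ 0 ∧
      (∀ g : G, g ∉ scalars ρ → eval (ρ g z) F = 0) ∧ ∀ g : G, eval (ρ g y) F = 0 := by
  obtain ⟨F1, h1, h2, h3⟩ := ha.two hst hy hz hfy hfz hyz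
  obtain ⟨F2, h4, h5, h6⟩ := hb z hz hfz
  refine ⟨F1 * F2, he ▸ h1.mul h4, ?_, fun g hg => ?_, fun g => ?_⟩
  · rw [map_mul]
    exact mul_ne_zero h2 h5
  · rw [map_mul, h6 g hg, mul_zero]
  · rw [map_mul, h3 g, zero_mul]

/-- separation of tangent vectors -/
theorem Sep.tangents {a b e : ℕ} (ha : Sep ρ f a) (hb : Sep ρ f b) (he : a + 1 + b = e)
    {v u : Fin M → ℂ} (hv : v ≠ 0) (hfv : eval v f = 0) (hvu : ∀ t : ℂ, u ≠ t • v) :
    ∃ F : MvPolynomial (Fin M) ℂ, F.IsHomogeneous e ∧ der v u F ≠ 0 ∧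
      (∀ g : G, eval (ρ g v) F = 0) ∧ ∀ g : G, g ∉ scalars ρ → der (ρ g v) (ρ g u) F = 0 := by
  obtain ⟨l, hl, hl'⟩ := exists_functional (Submodule.span ℂ {v}) (w := u) (by
    intro h
    obtain ⟨t, ht⟩ := Submodule.mem_span_singleton.1 h
    exact hvu t ht.symm)
  have hlv : l v = 0 := hl' v (Submodule.mem_span_singleton_self v)
  obtain ⟨F1, h1, h2, h3⟩ := ha v hv hfv
  obtain ⟨F2, h4, h5, h6⟩ := hb v hv hfv
  refine ⟨F1 * lin l * F2, he ▸ (h1.mul (lin_isHomogeneous l)).mul h4, ?_, fun g => ?_,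
    fun g hg => ?_⟩
  · rw [der_mul, der_mul, map_mul, eval_lin, hlv, der_lin]
    simp only [mul_zero, zero_mul, add_zero, zero_add]
    exact mul_ne_zero h5 (mul_ne_zero h2 hl)
  · by_cases hg : g ∈ scalars ρ
    · obtain ⟨c, hc⟩ := hg
      rw [map_mul, map_mul, hc, eval_lin, map_smul, hlv, smul_zero, mul_zero, zero_mul]
    · rw [map_mul, map_mul, h3 g hg, zero_mul, zero_mul]
  · rw [der_mul, map_mul, h3 g hg, h6 g hg, zero_mul, zero_mul, zero_mul, add_zero]

open Pool.Agent.J6H88.FQ in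
/-- Separation of two orbits and of tangent vectors, for groups acting freely on a hypersurface. -/
theorem forms [Finite G] {d e : ℕ} (hM : 3 ≤ M) (H : Hyp ρ f d) (hde : d ≤ e)
    (hcase : ∀ (x y : G) (ω : ℂ), (∀ v, ρ x (ρ y v) = ω • ρ y (ρ x v)) → M.Prime → ω ≠ 1 →
      ω ^ M = 1 → (scalars ρ).index ≤ e ∨
        ∃ D0 : ℕ, (scalars ρ).index ≤ M * D0 ∧ 2 * D0 + 3 ≤ e) :
    (∀ y z : Fin M → ℂ, y ≠ 0 → z ≠ 0 → eval y f = 0 → eval z f = 0 →
      (∀ (g : G) (t : ℂ), z ≠ t • ρ g y) →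
      ∃ F : MvPolynomial (Fin M) ℂ, F.IsHomogeneous e ∧ eval z F ≠ 0 ∧
        (∀ g : G, g ∉ scalars ρ → eval (ρ g z) F = 0) ∧ ∀ g : G, eval (ρ g y) F = 0) ∧
    (∀ v u : Fin M → ℂ, v ≠ 0 → eval v f = 0 → der v u f = 0 → (∀ t : ℂ, u ≠ t • v) →
      ∃ F : MvPolynomial (Fin M) ℂ, F.IsHomogeneous e ∧ der v u F ≠ 0 ∧
        (∀ g : G, eval (ρ g v) F = 0) ∧
        ∀ g : G, g ∉ scalars ρ → der (ρ g v) (ρ g u) F = 0) := by
  have hS : Free ρ (fun _ : Unit => f) (fun _ => d) :=
    free_of_ideal (I := Ideal.span {f}) (fun _ => H.hom) (by rw [Set.range_const]) H.stable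
      fun v hv0 hv => H.free v hv0 (hv f (Ideal.mem_span_singleton_self f))
  have h2 : ∀ (g : G) (x y : Fin M → ℂ) (μ : ℂ), LinearIndependent ℂ ![x, y] →
      ρ g x = μ • x → ρ g y = μ • y → g ∈ scalars ρ := fun g x y μ hli hx hy => H.simple hli hx hy
  have hd := H.pos
  by_cases hle : (scalars ρ).index ≤ e
  · refine ⟨fun y z hy hz hfy hfz hyz => ?_, fun v u hv hfv hfu hvu => ?_⟩
    · exact core_points Pool.Agent.N148.FQ.t_pair Pool.Agent.N738.FQ.t_bin hS hle
        (fun _ => by omega) hy hz (fun _ => hfy) (fun _ => hfz) hyz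
    · exact core_tangents Pool.Agent.N148.FQ.t_pair Pool.Agent.N738.FQ.t_bin2 hS (by omega) hle
        (fun _ => by omega) hv (fun _ => hfv) (fun _ => hfu) hvu
  · by_cases hcomm : ∀ (x y : G) (ω : ℂ), (∀ v, ρ x (ρ y v) = ω • ρ y (ρ x v)) → ω = 1
    · exfalso
      have h3 := index_dvd (k := 1) (by omega) hd le_rfl H.hom H.semi H.free
        (fun x y ω h => by rw [hcomm x y ω h, one_pow])
      rw [one_mul] at h3
      exact hle ((Nat.le_of_dvd hd h3).trans hde)
    · push Not at hcomm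
      obtain ⟨x, y, ω, hxy, hω⟩ := hcomm
      obtain ⟨hMp, hωM⟩ := commutator_prime h2 (by omega) hxy hω
      rcases hcase x y ω hxy hMp hω hωM with h | ⟨D0, hD1, hD2⟩
      · exact absurd h hle
      · have hsep : ∀ a, D0 + 1 ≤ a → Sep ρ f a := fun a ha z hz hfz =>
          exceptional hS hMp hM (fun l hl hdvd => prime_ge h2 (by omega) hl hdvd) hxy hωM hω hD1
            ha hz (fun _ => hfz)
        have ha := hsep (D0 + 1) le_rfl
        have hb := hsep (e - D0 - 2) (by omega)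
        refine ⟨fun y z hy hz hfy hfz hyz => ?_, fun v u hv hfv _ hvu => ?_⟩
        · exact ha.points hb (by omega) (fun g v hv => hS.stable g v (fun _ => hv) ()) hy hz hfy
            hfz hyz
        · exact ha.tangents hb (by omega) hv hfv hvu

end Pool.Agent.J6H82.Fuj
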